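import Pool.Agent.W894.FE.Fin2

/-!
# The probability that the Weisfeiler-Leman algorithm fails to identify a random graph

For every `k ≥ 1` the fraction `failProb k n` of the graphs on `n` labelled vertices which the
`k`-dimensional Weisfeiler-Leman algorithm does not distinguish from all nonisomorphic graphs
is asymptotically equal to `K n ^ a / 2 ^ (c n)`, where `c = ck k` is the least value of
(number of vertices) - (number of colours) for a vertex-coloured graph that the algorithm does not
identify, `c < a ≤ 2 c` and `K > 0`. For colour refinement (`k = 1`) it is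
`(32 / 3 + o(1)) n ^ 6 / 8 ^ n`. The exponents satisfy `k / 2 < ck k ≤ C k`, and uniformly for
all `n` and all `1 ≤ k ≤ ε n` the fraction lies between `2 ^ (- C k n)` and `2 ^ (- ε k n)`.

Outline. The stable partition is equitable. A graph with an equitable partition with `b ≤ n / 2`
vertices in nonsingleton classes and deficiency `d` (vertices minus classes) is determined up to
`2 ^ (d (n - b))` by the partition; and graphs with an equitable partition in which more than half
of the vertices are in nonsingleton classes are a fraction of `2 ^ (- c n log n)` (group the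
classes into eight big cells; then many disjoint pairs of vertices have the same numbers of
neighbours in the cells). The graph induced on the nonsingleton classes, coloured by the
classes, is not identified if the graph is not. Conversely any coloured graph which is not
identified can be joined homogeneously to almost every graph. For the uniform lower bound coloured
graphs on expanding systems of linear equations are used.
-/

set_option autoImplicit false

namespace Pool.Agent.Results.MP_f1a348_lc.FailureExponent

open Pool.Agent.W894.FE Filter Topology

theorem result :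
    (∀ k : ℕ, 1 ≤ k → ∃ (a : ℕ) (K : ℝ), ck k < a ∧ a ≤ 2 * ck k ∧ 0 < K ∧
      Tendsto (fun n : ℕ => failProb k n / ((n : ℝ) ^ a / 2 ^ (ck k * n))) atTop (𝓝 K)) ∧
    ck 1 = 3 ∧
    Tendsto (fun n : ℕ => failProb 1 n / ((n : ℝ) ^ 6 / 8 ^ n)) atTop (𝓝 (32 / 3)) ∧
    (∃ C : ℕ, ∀ k : ℕ, 1 ≤ k → k < 2 * ck k ∧ ck k ≤ C * k) ∧
    ∃ ε C : ℝ, 0 < ε ∧ ∀ n k : ℕ, 1 ≤ k → (k : ℝ) ≤ ε * n →
      (2 : ℝ) ^ (-(C * k * n)) ≤ failProb k n ∧ failProb k n ≤ (2 : ℝ) ^ (-(ε * k * n)) :=
  final

end Pool.Agent.Results.MP_f1a348_lc.FailureExponent
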