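import Pool.Agent.W879.GW.Main

/-!
# Finite groups have Weisfeiler-Leman dimension of order `log n`

There is a constant `C` such that for every odd prime `p` and every `k ≥ 1` there are two
non-isomorphic groups of the same order `n = p ^ r`, `r ≤ C k`, of exponent `p`, nilpotent of
class two with commutators in a central subgroup of order `p ^ 6`, whose Latin square graphs
(the graphs of their multiplication tables) are not isomorphic but are not distinguished by the
`k`-dimensional Weisfeiler-Leman method. So the method needs dimension of order `log n` even for
the isomorphism of groups, where dimension `O(log n)` trivially suffices.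

The groups live on `A × B × Γ` with `Γ = F_p ^ 6`, where `B` is a space of linear maps `A → Γ`,
with the product `(x, c, z) (y, d, z') = (x + y, c + d, z + z' + f x y + c y - d x)`; one group
has `f = 0`. They are isomorphic exactly if some linear `M : A → B` satisfies
`M x y - M y x = f x y` for all `x, y`. The space `B` is the set of `6`-tuples `c` of functionals
with `∑ q i (c i) = 0`, where the alternating maps `q i` from the dual of `A` to `A` expand the
dimension of all small subspaces by a factor two; they exist by a counting argument. The trace
shows that there is no such `M` for a suitable `f`, and the expansion and linear duality give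
partial solutions on all small subspaces of `A` that can be extended one step at a time.
-/

set_option autoImplicit false

namespace Pool.Agent.Results.MP_f1a348_lc.GroupWLDimension

open Pool.Agent.W185.SRG Pool.Agent.W185.LSQ Pool.Agent.W879.GW

theorem result : ∃ C : ℕ, ∀ p : ℕ, p.Prime → p ≠ 2 → ∀ k : ℕ, 1 ≤ k →
    ∃ (G H : Type) (_ : Group G) (_ : Group H) (_ : Fintype G) (_ : Fintype H) (r : ℕ),
      r ≤ C * k ∧ Fintype.card G = p ^ r ∧ Fintype.card H = p ^ r ∧
      ExpClassTwo p G ∧ ExpClassTwo p H ∧ IsEmpty (G ≃* H) ∧
      IsEmpty (latinGraph (fun a b : G => a * b) ≃g latinGraph (fun a b : H => a * b)) ∧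
      WLEquivalent k (latinGraph fun a b : G => a * b) (latinGraph fun a b : H => a * b) :=
  ⟨678, fun p hp hp2 k hk => main p hp hp2 k hk⟩

end Pool.Agent.Results.MP_f1a348_lc.GroupWLDimension
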