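import Pool.Agent.W185.IR.Main
import Pool.Agent.W185.IR.Exists

/-!
# A tight lower bound for individualization-refinement on Latin square graphs

There is a constant `C` such that for every `k ≥ 1` there are two Latin squares of the same order
`n`, `2 ^ k ≤ n ≤ 2 ^ (C k)`, whose Latin square graphs `X`, `X'` are not isomorphic, such that the
individualization-refinement method with the `j`-dimensional Weisfeiler-Leman method as refinement,
for any `j ≤ k`, and with any cell selector which is invariant for this method, has to visit
`n ^ (log n / C)` nodes, although it is allowed to prune with all invariants of the method and with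
all automorphisms: this is so for the comparison of `X` with `X'`, of `X'` with `X`, and for the
search in the tree of `X` alone (canonical labelling, automorphisms). As Latin square isomorphism
is decided by individualizing `log n` suitable lines and colour refinement, in time `n ^ O(log n)`
(Miller 1978), the exponent is optimal up to the constant.

Proof idea. The Latin squares are the tables of quasigroups on `A × C × Γ`, `A = F_2^a`,
`C = F_2^r`, with product
`(u, c, g) (v, c', g') = (u + v, c + c', g + g' + h(u, v) + ∑_s [u = x_s, v = y_s] (ψ_s(c) + b_s) γ)`.
Linear maps `M : A → C` with `ψ_s(M x_s) = b_s + b'_s` move the square with right hand sides `b` to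
the one with `b'`. For `m = 4 a r` random rank one equations the system has for most `b + b'` no
solution, and only the trivial one for `b = b'`, but every sum of few of the equations has large
rank, so on subspaces of small dimension `d` there are `2 ^ (r d - O(r))` consistent local
solutions, all of which lead to nodes that look alike. The function `h` is chosen by counting such
that all isotopisms are gauge transformations, so that there are at most `n ^ 8` automorphisms.
-/

set_option autoImplicit false

namespace Pool.Agent.Results.MP_f1a348_lc.IRLatinSquares

open Pool.Agent.W185.LSQ Pool.Agent.W185.IR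

theorem result :
    (∀ (V : Type) [Fintype V] (j : ℕ), 1 ≤ j →
      ∃ sel : SimpleGraph V → List V → Set V, IsSelector j sel) ∧
    (∀ (V : Type) [Fintype V] (j : ℕ), 1 ≤ j → ∀ sel : SimpleGraph V → List V → Set V,
      IsSelector j sel → ∀ G : SimpleGraph V, ∃ v, IsLeaf sel G v) ∧
    ∃ C : ℕ, ∀ k : ℕ, 1 ≤ k →
      ∃ (Q : Type) (_ : Fintype Q) (L L' : Q → Q → Q), IsLatinSquare L ∧ IsLatinSquare L' ∧
        2 ^ k ≤ Fintype.card Q ∧ Fintype.card Q ≤ 2 ^ (C * k) ∧
        IsEmpty (latinGraph L ≃g latinGraph L') ∧
        ∀ X Y : SimpleGraph (Q × Q), (X = latinGraph L ∨ X = latinGraph L') →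
          (Y = latinGraph L ∨ Y = latinGraph L') →
          ∀ j : ℕ, 1 ≤ j → j ≤ k →
            ∀ sel : SimpleGraph (Q × Q) → List (Q × Q) → Set (Q × Q), IsSelector j sel →
              ∀ (v : List (Q × Q)) (E : Finset (List (Q × Q))), IsLeaf sel X v →
                Explores j sel X v Y E →
                Fintype.card Q ^ Nat.log 2 (Fintype.card Q) ≤ E.card ^ C := by
  refine ⟨fun V _ j hj => exists_isSelector hj, fun V _ j hj sel hsel G => exists_leaf hj hsel G,
    3625, fun k hk => ?_⟩
  obtain ⟨Q, iQ, L, L', h1, h2, h3, h4, h5, h6⟩ := Pool.Agent.W185.IR.main k hk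
  refine ⟨Q, iQ, L, L', h1, h2, h3, h4, h5, ?_⟩
  intro X Y hX hY j hj hjk sel hsel v E hv hE
  have h7 := h6 X Y hX hY j hj hjk sel hsel v E hv hE
  refine h7.trans ?_
  rcases Nat.eq_zero_or_pos E.card with h0 | h0
  · rw [h0, zero_pow (by norm_num), zero_pow (by norm_num)]
  · exact Nat.pow_le_pow_right h0 (by norm_num)

end Pool.Agent.Results.MP_f1a348_lc.IRLatinSquares
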