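import Pool.Agent.W893.PR.Final

set_option autoImplicit false

/-! # The Weisfeiler-Leman dimension of dense pseudorandom graphs is logarithmic

Part 1: for every `ε > 0` there is `c > 0` such that for all large `n` there are two `n`-vertex
graphs `G`, `H` in which all degrees are `n / 2` and all numbers of common neighbours are `n / 4`
up to `ε n`, which the `k`-dimensional Weisfeiler-Leman algorithm does not distinguish for any
`k ≤ c log n`, although every bijection between them is wrong on a fraction at least `1 / 2 - ε`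
of all pairs of vertices.  Part 2: dimension `5 log n + 2` decides isomorphism between a graph
with `ε = 1 / 32` and any other graph. -/

namespace Pool.Agent.Results.MP_f1a348_lc.PseudorandomWL

open Pool.Agent.W893.PR

theorem result :
    (∀ ε : ℝ, 0 < ε → ∃ c : ℝ, 0 < c ∧ ∃ n₀ : ℕ, ∀ n : ℕ, n₀ ≤ n →
      ∃ G H : SimpleGraph (Fin n), Pseudorandom ε G ∧ Pseudorandom ε H ∧
        (∀ π : Equiv.Perm (Fin n), (1 / 2 - ε) * (n : ℝ) ^ 2 ≤ errors G H π) ∧
        ∀ k : ℕ, (k : ℝ) ≤ c * Real.log n → WLEquiv k G H) ∧
    (∀ (n : ℕ) (G H : SimpleGraph (Fin n)), Pseudorandom (1 / 32) G →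
      ∀ k : ℕ, 5 * Real.log n + 2 ≤ k → WLEquiv k G H → Nonempty (G ≃g H)) :=
  main'

end Pool.Agent.Results.MP_f1a348_lc.PseudorandomWL
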