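import Pool.Agent.W913.LD.Lower

/-! A uniformly random graph with `n` vertices is not identified by the `k`-dimensional
Weisfeiler-Leman algorithm with probability `2 ^ (-Θ(k n))`. -/

namespace Pool.Agent.Results.MP_f1a348_lc.WLDimensionTail

open Pool.Agent.W893.PR

/-- The proportion of the graphs with the vertices `0, …, n - 1` which have the property `P`. -/
noncomputable def prob (n : ℕ) (P : SimpleGraph (Fin n) → Prop) : ℝ :=
  (({G : SimpleGraph (Fin n) | P G} : Set (SimpleGraph (Fin n))).ncard : ℝ) /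
    (Nat.card (SimpleGraph (Fin n)) : ℝ)

/-- The `k`-dimensional Weisfeiler-Leman algorithm identifies `G`: it distinguishes `G` from all
graphs which are not isomorphic to `G`. -/
def Identified (k : ℕ) {n : ℕ} (G : SimpleGraph (Fin n)) : Prop :=
  ∀ H : SimpleGraph (Fin n), WLEquiv k G H → Nonempty (G ≃g H)

/-- Already after `r` rounds the `k`-dimensional Weisfeiler-Leman algorithm distinguishes `G` from
all graphs which are not isomorphic to `G`. -/
def IdentifiedIn (r k : ℕ) {n : ℕ} (G : SimpleGraph (Fin n)) : Prop :=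
  ∀ H : SimpleGraph (Fin n), (Finset.univ : Finset (Fin k → Fin n)).val.map (wl G k r) =
    (Finset.univ : Finset (Fin k → Fin n)).val.map (wl H k r) → Nonempty (G ≃g H)

theorem result : ∃ c C : ℝ, 0 < c ∧ ∀ k n : ℕ, 1 ≤ k → C * k ≤ n →
    (2 : ℝ) ^ (-(C * k * n)) ≤ prob n (fun G => ¬ Identified k G) ∧
    (9 ≤ k → prob n (fun G => ¬ IdentifiedIn 3 k G) ≤ (2 : ℝ) ^ (-(c * k * n))) := by
  obtain ⟨L, hL⟩ := Pool.Agent.W913.LD.lower
  refine ⟨1 / 225280, L + 2 ^ 30, by norm_num, fun k n hk hn => ?_⟩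
  have hk1 : (1 : ℝ) ≤ k := by exact_mod_cast hk
  have hn0 : (0 : ℝ) ≤ n := Nat.cast_nonneg _
  have hL0 : (0 : ℝ) ≤ L := Nat.cast_nonneg _
  have hcard : (0 : ℝ) < Nat.card (SimpleGraph (Fin n)) := by
    have : 0 < Nat.card (SimpleGraph (Fin n)) := Nat.card_pos
    exact_mod_cast this
  have h1 : (L : ℝ) * k ≤ n := by
    have : (0 : ℝ) ≤ 2 ^ 30 * k := by positivity
    linarith
  have h2 : (2 : ℝ) ^ 30 * k ≤ n := by
    have : (0 : ℝ) ≤ L * k := by positivity
    linarith
  constructor
  · have h3 := hL k n hk (by exact_mod_cast h1)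
    unfold prob
    rw [le_div_iff₀ hcard, mul_comm]
    refine le_trans ?_ h3
    apply mul_le_mul_of_nonneg_left _ hcard.le
    apply Real.rpow_le_rpow_of_exponent_le (by norm_num)
    have : (0 : ℝ) ≤ 2 ^ 30 * k * n := by positivity
    linarith
  · intro hk9
    have h4 : 2 ^ 30 * k ≤ n := by exact_mod_cast h2
    have h3 := Pool.Agent.W913.LD.upper k n hk9 (by omega) (by omega)
    unfold prob
    rw [div_le_iff₀ hcard, mul_comm]
    refine le_trans h3 ?_
    apply mul_le_mul_of_nonneg_left _ hcard.le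
    apply le_of_eq
    congr 1
    ring

end Pool.Agent.Results.MP_f1a348_lc.WLDimensionTail
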